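import Mathlib
import Pool.Agent.TH724.GJ

/-!
# An iterated group jump which is not a single group jump

The double jump of a smooth equivalence relation `E` with at least two classes contains the
coordinatewise shift action of the uncountable group `G^H` on `{a, b}^(G × H)`, while the jump of
`E` by a countable group `K` is reducible to the shift action of `K` on `Z^K`. If `f` reduces the
former to the latter, then by the Baire category theorem there are `k ∈ K` and an open set on
which `f (γ α) = k (f α)` generically. By the theorem of Kuratowski and Ulam and topological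
transitivity, `f` is generically constant when finitely many coordinates (in `H`) are fixed. But
the classes of the double jump are meagre there.
-/

set_option autoImplicit false

open Set Filter Topology
open Pool.Agent.TH724.GJ

namespace Pool.Agent.Results.MP_9b97c3_lc.NoSingleJump

universe u v

/-- The `G`-jump `E^[G]` of `E`: `α` and `β` in `X^G` are related if there is `g` in `G` such that
`α (g⁻¹ h)` and `β h` are `E`-related for all `h` in `G`. -/
def Jump (G : Type*) [Group G] {X : Type*} (E : X → X → Prop) : (G → X) → (G → X) → Prop :=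
  fun α β => ∃ g : G, ∀ h : G, E (α (g⁻¹ * h)) (β h)

/-- Borel reducibility. -/
def BorelReducible {X Y : Type*} [TopologicalSpace X] [TopologicalSpace Y] (E : X → X → Prop)
    (F : Y → Y → Prop) : Prop :=
  ∃ f : X → Y, @Measurable X Y (borel X) (borel Y) f ∧ ∀ x x', E x x' ↔ F (f x) (f x')

/-- `E` is smooth: it is the kernel of a Borel map to a Polish space. -/
def Smooth {X : Type*} [TopologicalSpace X] (E : X → X → Prop) : Prop :=
  ∃ (Z : Type) (_ : TopologicalSpace Z) (_ : PolishSpace Z) (c : X → Z),
    @Measurable X Z (borel X) (borel Z) c ∧ ∀ x y, E x y ↔ c x = c y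

/-- Let `G` and `H` be infinite countable groups, and let `E` be a smooth equivalence relation with
at least two classes on a Polish space. Then for every countable group `K` the double jump
`(E^[G])^[H]` is not Borel reducible to `E^[K]`; in particular they are not Borel bi-reducible. -/
theorem result (G H : Type) [Group G] [Group H] [Countable G] [Countable H] [Infinite G]
    [Infinite H] {X : Type u} [TopologicalSpace X] [PolishSpace X] (E : X → X → Prop)
    (_hE : Equivalence E) (hs : Smooth E) (h2 : ∃ a b, ¬ E a b)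
    (K : Type v) [Group K] [Countable K] :
    ¬ BorelReducible (Jump H (Jump G E)) (Jump K E) := by
  classical
  rintro ⟨f₀, hf₀, hred⟩
  obtain ⟨Z, tZ, pZ, c, hc, hEc⟩ := hs
  obtain ⟨a₀, b₀, hab⟩ := h2
  let : TopologicalSpace G := ⊥
  have : DiscreteTopology G := ⟨rfl⟩
  let : MeasurableSpace Z := borel Z
  have : BorelSpace Z := ⟨rfl⟩
  let : MeasurableSpace ((H → G) × (H → G → Bool)) := borel _
  have : BorelSpace ((H → G) × (H → G → Bool)) := ⟨rfl⟩
  let mS : MeasurableSpace (H → G → Bool) := borel _
  have : BorelSpace (H → G → Bool) := ⟨rfl⟩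
  -- the embedding of `2^(G × H)`
  let i : Bool → X := fun t => if t then b₀ else a₀
  have hi : ∀ s t : Bool, E (i s) (i t) ↔ s = t := by
    have hba : ¬ E b₀ a₀ := fun h => hab ((hEc _ _).2 ((hEc _ _).1 h).symm)
    have hr : ∀ x, E x x := fun x => (hEc _ _).2 rfl
    intro s t
    cases s <;> cases t <;> simp [i, hab, hba, hr]
  let j : (H → G → Bool) → (H → G → X) := fun α h x => i (α h x)
  have hj : Continuous j := by
    refine continuous_pi fun h => continuous_pi fun x => ?_
    exact (continuous_of_discreteTopology (f := i)).comp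
      ((continuous_apply x).comp (continuous_apply h))
  let f : (H → G → Bool) → (K → Z) := fun α l => c (f₀ (j α) l)
  have hjm : @Measurable _ _ mS (borel (H → G → X)) j := hj.borel_measurable
  have hf : Measurable f := by
    refine measurable_pi_lambda _ fun l => ?_
    have h3 : @Measurable _ _ (borel (K → X)) (borel X) (fun w : K → X => w l) :=
      (continuous_apply l).borel_measurable
    exact hc.comp (h3.comp (hf₀.comp hjm))
  -- the shift on the target
  let κ : K → (K → Z) → (K → Z) := fun k w l => w (k⁻¹ * l)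
  have hκ : ∀ k, Measurable (κ k) := fun k =>
    measurable_pi_lambda _ fun l => measurable_pi_apply _
  have hact : ∀ (γ : H → G) (α : H → G → Bool), ∃ k, f (act γ α) = κ k (f α) := by
    intro γ α
    have h3 : Jump H (Jump G E) (j α) (j (act γ α)) := by
      refine ⟨1, fun h' => ⟨γ h', fun x => ?_⟩⟩
      rw [inv_one, one_mul]
      exact (hEc _ _).2 rfl
    rw [hred] at h3
    obtain ⟨k, hk⟩ := h3
    refine ⟨k, funext fun l => ?_⟩
    exact ((hEc _ _).1 (hk l)).symm
  -- one of the sets `P k` is not meagre
  let P : K → Set ((H → G) × (H → G → Bool)) := fun k => {p | f (act p.1 p.2) = κ k (f p.2)}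
  have hP : ∀ k, MeasurableSet (P k) := by
    intro k
    have h3 : Measurable (fun p : (H → G) × (H → G → Bool) => (f (act p.1 p.2), κ k (f p.2))) := by
      refine Measurable.prodMk ?_ ?_
      · exact hf.comp continuous_act.measurable
      · exact (hκ k).comp (hf.comp continuous_snd.measurable)
    exact h3 isClosed_diagonal.measurableSet
  obtain ⟨k, hk⟩ : ∃ k, ¬ IsMeagre (P k) := by
    by_contra hcon
    push Not at hcon
    have h3 : (⋃ k, P k) = univ := by
      refine eq_univ_of_forall fun p => ?_
      obtain ⟨k, hk⟩ := hact p.1 p.2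
      exact mem_iUnion.2 ⟨k, hk⟩
    have h4 : IsMeagre (⋃ k, P k) := isMeagre_iUnion hcon
    rw [h3] at h4
    exact not_isMeagre_of_isOpen isOpen_univ ⟨((fun _ => 1), fun _ _ => true), trivial⟩ h4
  obtain ⟨V, hV, hPV⟩ := (hP k).baireMeasurableSet.residualEq_isOpen
  have hPV' : ∀ᶠ p in residual ((H → G) × (H → G → Bool)), (p ∈ P k ↔ p ∈ V) := by
    filter_upwards [hPV] with p hp
    exact iff_of_eq hp
  have hVne : V.Nonempty := by
    by_contra hcon
    rw [not_nonempty_iff_eq_empty] at hcon
    apply hk
    rw [IsMeagre]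
    filter_upwards [hPV'] with p hp h3
    rw [hp, hcon] at h3
    exact h3
  -- a box inside `V`
  obtain ⟨⟨γ₀, α₀⟩, h0⟩ := hVne
  obtain ⟨U₁, O₁, hU₁, hO₁, hγ₀, hα₀, hUO⟩ := isOpen_prod_iff.1 hV γ₀ α₀ h0
  obtain ⟨F₁, u, hu, hsub⟩ := isOpen_pi_iff.1 hU₁ γ₀ hγ₀
  obtain ⟨F₂, A, hA⟩ := exists_box hO₁ hα₀
  let F : Finset H := F₁ ∪ F₂
  have hbox : ∀ (δ : H → G) (a b : H → G → Bool), (∀ h ∈ F, ∀ x ∈ A, a h x = α₀ h x) →
      (mix F γ₀ δ, mix F a b) ∈ V := by
    intro δ a b ha
    refine hUO ⟨hsub fun h hh => ?_, hA _ fun h hh x hx => ?_⟩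
    · have h3 : h ∈ F := Finset.mem_union_left _ hh
      simp only [mix, h3, if_true]
      exact (hu h hh).2
    · have h3 : h ∈ F := Finset.mem_union_right _ hh
      simp only [mix, h3, if_true]
      exact ha h h3 x hx
  -- restrict the coordinates
  let Θ : (H → G → Bool) × ((H → G) × (H → G → Bool)) → (H → G) × (H → G → Bool) :=
    fun q => (mix F γ₀ q.2.1, mix F q.1 q.2.2)
  let e : (H → G → Bool) × ((H → G) × (H → G → Bool)) ≃ₜ
      (H → G) × ((H → G → Bool) × (H → G → Bool)) :=
    { toFun := fun q => (q.2.1, (q.1, q.2.2))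
      invFun := fun q => (q.2.1, (q.1, q.2.2))
      left_inv := fun q => rfl
      right_inv := fun q => rfl
      continuous_toFun := by fun_prop
      continuous_invFun := by fun_prop }
  have hΘ : Θ = (Prod.map (fun δ : H → G => mix F γ₀ δ)
      (fun p : (H → G → Bool) × (H → G → Bool) => mix F p.1 p.2)) ∘ e := rfl
  have hΘc : Continuous Θ := by
    rw [hΘ]
    exact ((continuous_mix_right F γ₀).prodMap (continuous_mix F)).comp e.continuous
  have hΘo : IsOpenMap Θ := by
    rw [hΘ]
    exact ((isOpenMap_mix_right F γ₀).prodMap (isOpenMap_mix F)).comp e.isOpenMap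
  have h5 := (tendsto_residual_of_isOpenMap hΘc hΘo).eventually hPV'
  have h6 := ku (P := fun (a : H → G → Bool) (q : (H → G) × (H → G → Bool)) =>
    (Θ (a, q) ∈ P k ↔ Θ (a, q) ∈ V)) h5
  have hopen : IsOpen {a : H → G → Bool | ∀ h ∈ F, ∀ x ∈ A, a h x = α₀ h x} := by
    have : {a : H → G → Bool | ∀ h ∈ F, ∀ x ∈ A, a h x = α₀ h x} =
        ⋂ h ∈ F, ⋂ x ∈ A, {a : H → G → Bool | a h x = α₀ h x} := by
      ext a
      simp
    rw [this]
    refine isOpen_biInter_finset fun h _ => isOpen_biInter_finset fun x _ => ?_
    have h3 : Continuous (fun a : H → G → Bool => a h x) :=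
      (continuous_apply x).comp (continuous_apply h)
    exact (isOpen_discrete ({α₀ h x} : Set Bool)).preimage h3
  obtain ⟨a, ha, h7⟩ := exists_of_residual h6 hopen ⟨α₀, fun _ _ _ _ => rfl⟩
  let a' : H → G → Bool := act γ₀ a
  have h8 : ∀ᶠ q in residual ((H → G) × (H → G → Bool)),
      (fun b => f (mix F a' b)) (act q.1 q.2) = (fun b => κ k (f (mix F a b))) q.2 := by
    filter_upwards [h7] with q hq
    have h9 := hq.2 (hbox q.1 a q.2 ha)
    change f (act (mix F γ₀ q.1) (mix F a q.2)) = κ k (f (mix F a q.2)) at h9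
    rw [act_mix] at h9
    exact h9
  have hfa : Measurable (fun b => f (mix F a' b)) :=
    hf.comp (continuous_mix_right F a').measurable
  have h10 := const_of_inv (G := G) (H := H) (f := fun b => f (mix F a' b))
    (φ := fun b => κ k (f (mix F a b))) hfa h8
  obtain ⟨b, -, hb⟩ := exists_of_residual h10 isOpen_univ ⟨fun _ _ => true, trivial⟩
  obtain ⟨h₀, hh₀⟩ := Infinite.exists_notMem_finset F
  let Q : Set (G → Bool) := range fun q : H × G => fun x => mix F a' b (q.1⁻¹ * h₀) (q.2⁻¹ * x)
  have hQ : Q.Countable := countable_range _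
  obtain ⟨b', -, hb', hb''⟩ := exists_of_residual (hb.and (avoid_countable h₀ hQ)) isOpen_univ
    ⟨fun _ _ => true, trivial⟩
  -- the two points are related
  have h11 : Jump H (Jump G E) (j (mix F a' b)) (j (mix F a' b')) := by
    rw [hred]
    refine ⟨1, fun l => ?_⟩
    rw [inv_one, one_mul, hEc]
    exact congrFun hb' l
  obtain ⟨h, hh⟩ := h11
  obtain ⟨g, hg⟩ := hh h₀
  apply hb''
  refine ⟨(h, g), funext fun x => ?_⟩
  have h12 := (hi _ _).1 (hg x)
  simp only
  rw [h12]
  simp [mix, hh₀]

end Pool.Agent.Results.MP_9b97c3_lc.NoSingleJump
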